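import Pool.Agent.Lib.H8.Gk2

/-!
A computable field with a low ordering and no computable copy as an ordered field.
-/

namespace Pool.Agent.Results.MP_1308e3_lc.No

open Pool.Agent.Lib.H8 Arith CList Qm Kc Om Gk Classical

/-- `ν` identifies the field `F` with a computable set of natural numbers on which addition and
multiplication are computable. -/
def Pres (F : Type) [Field F] (ν : F → ℕ) : Prop :=
  Function.Injective ν ∧ ComputablePred (· ∈ Set.range ν) ∧
    ∃ A M : ℕ → ℕ → ℕ, Computable₂ A ∧ Computable₂ M ∧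
      ∀ x y, ν (x + y) = A (ν x) (ν y) ∧ ν (x * y) = M (ν x) (ν y)

/-- The ordering as a set of natural numbers. -/
def ord {F : Type} [LT F] (ν : F → ℕ) : Set ℕ := {n | ∃ x y, x < y ∧ n = Nat.pair (ν x) (ν y)}

/-- The characteristic function. -/
noncomputable def chi (X : Set ℕ) : ℕ →. ℕ := fun n => Part.some (if n ∈ X then 1 else 0)

/-- The halting problem. -/
def Halt : Set ℕ := {e | ((Denumerable.ofNat Nat.Partrec.Code e).eval e).Dom}

/-- Every set c.e. in `X` (in particular the jump of `X`) is computable in the halting problem. -/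
def Low (X : Set ℕ) : Prop :=
  ∀ f : ℕ →. ℕ, TuringReducible f (chi X) → TuringReducible (chi f.Dom) (chi Halt)

theorem result : ∃ (F : Type) (_ : Field F) (_ : LinearOrder F) (_ : IsStrictOrderedRing F)
    (ν : F → ℕ), Pres F ν ∧ Low (ord ν) ∧
      ∀ (K : Type) [Field K] [LinearOrder K] (μ : K → ℕ), Pres K μ →
        ComputablePred (· ∈ ord μ) → IsEmpty (F ≃+*o K) := by
  have f := @Computable.fst
  have s := @Computable.snd
  obtain ⟨a, g1, g2⟩ := generic
  have pe (l m) : sv (val a) l = sv (val a) m ↔ l.Perm m := ⟨fun h => by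
    by_contra n
    obtain ⟨k, o | o⟩ := g1 _ (CeAlg.cs (cor (lt_c Computable.id (Computable.const l)
      (Computable.const m)) (lt_c Computable.id (Computable.const m) (Computable.const l))))
      (dense n) fun _ b o => o.imp (lt_step b) (lt_step b)
    · exact ((lt_iff _ _ _).2 ⟨k, o⟩).ne h
    · exact ((lt_iff _ _ _).2 ⟨k, o⟩).ne' h, fun h => (h.map _).sum_eq⟩
  obtain ⟨e, e1, e2⟩ := enum pe
  let ν x := Nat.find (e1 x)
  have eν (x) : e (ν x) = x := Nat.find_spec (e1 x)
  have cν {α : Type} [Primcodable α] {g : α → fld (val a)} (h : Cf (val a) fun x => g x) :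
      Computable fun x => ν (g x) := by
    obtain ⟨l, m, a1, a2, a3⟩ := (e2.comp s).lt (h.comp f)
    exact Computable.find (P := fun x n => e n = g x) ((perm_c a1 a2).of_eq fun q => by
      rw [← pe, ← (a3 q).2, Subtype.ext_iff]) _
  have rg : ComputablePred (· ∈ Set.range ν) := (ceq (cν e2) Computable.id).of_eq fun n =>
    ⟨fun h => ⟨_, h⟩, fun ⟨x, h⟩ => by rw [← h, eν]; rfl⟩
  have mo {K : Type} [LinearOrder K] {μ : K → ℕ} (i : Function.Injective μ) (x y : K) :
      Nat.pair (μ x) (μ y) ∈ ord μ ↔ x < y :=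
    ⟨fun ⟨_, _, l, h⟩ => by rw [Nat.pair_eq_pair, i.eq_iff, i.eq_iff] at h; rwa [h.1, h.2],
      fun h => ⟨x, y, h, rfl⟩⟩
  have iν : Function.Injective ν := Function.LeftInverse.injective eν
  refine ⟨fld (val a), inferInstance, inferInstance, inferInstance, ν,
    ⟨iν, rg, fun x y => ν (e x + e y), fun x y => ν (e x * e y),
      cν ((e2.comp f).add (e2.comp s)), cν ((e2.comp f).mul (e2.comp s)),
      fun x y => by simp only [eν, and_self]⟩, fun F h => ?_,
    fun K _ _ μ ⟨i, _, A, _, hA, _, k⟩ h => ⟨fun φ => ?_⟩⟩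
  · obtain ⟨l, m, a1, a2, a3⟩ := (e2.comp u1).lt (e2.comp u2)
    refine Orc.R.tur (low g2 (S := (· ∈ ord ν)) (cand (cp rg u1) (cp rg u2)) a1 a2 pe
      (fun n => ?_) (RecursiveIn.iff_nat.1 h))
    rw [← (a3 n).1]
    refine ⟨?_, fun ⟨⟨⟨x, u⟩, y, v⟩, w⟩ => ⟨x, y, ?_, by simp [u, v]⟩⟩
    · rintro ⟨x, y, l, rfl⟩
      simpa [eν] using l
    · simpa [← u, ← v, eν] using w
  · have T (x : fld (val a)) : Computable fun n : ℕ => μ (φ (n * x)) :=
      (Computable.nat_rec Computable.id (Computable.const (μ 0)) (hA.comp (s.comp s)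
        (Computable.const (μ (φ x)))).to₂).of_eq fun n => by
          induction n with
          | zero => simp
          | succ n j => simp only [id] at j ⊢; simp [j, add_mul, (k _ _).1]
    have r : Cf (val a) fun _ : ℕ => val a := by simpa using cf_pow (α := ℕ) (r := val a) 1
    have pc := Primrec₂.natPair.to_comp
    refine nocomp g1 ((cp h (pc.comp ((T 1).comp f) ((T ⟨_, r⟩).comp s))).of_eq fun q => ?_)
      ((cp h (pc.comp ((T ⟨_, r⟩).comp s) ((T 1).comp f))).of_eq fun q => ?_) <;>
      rw [mo i, map_lt_map_iff, ← Subtype.coe_lt_coe] <;> simp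

end Pool.Agent.Results.MP_1308e3_lc.No
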